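import Pool.Agent.Lib.MP_f11a48_ag.SH.Spec

/-!
# MP_f11a48_ag, PROJECT S0, part VAL: the decomposition `K² = K (c, \bar e) + K (e, 1)`
-/

set_option autoImplicit false

open Matrix
open Pool.Agent.Lib.MPf11a48.CM hiding OmegaM
open Pool.Agent.Lib.MPf11a48.GL2T
open Pool.Agent.Lib.MPf11a48.U
open Pool.Agent.Lib.MPf11a48.CMS

namespace Pool.Agent.Lib.MPf11a48.SH.VAL

variable {K : Type} [Field K] [NumberField K] {T : Type} [Fintype T] [DecidableEq T] {n : ℕ}
  (F : Fam K T n)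

theorem trace_bar (x : K) : Algebra.trace ℚ K (F.bar x) = Algebra.trace ℚ K x :=
  Algebra.trace_eq_of_algEquiv F.bar.toRatAlgEquiv x

theorem bar_bar (x : K) : F.bar (F.bar x) = x := by
  apply (F.sg (Sum.inl F.t0)).injective
  rw [F.conj, F.conj, Complex.conj_conj]

theorem EE_skew (l m : K × K) : F.E m l = -F.E l m := by
  rw [Fam.E, Fam.E, EE, EE, ← trace_bar F, ← map_neg]
  congr 1
  rw [map_mul, map_sub, map_mul, map_mul, map_mul, F.ξ_bar, F.c_bar, bar_bar, bar_bar]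
  ring

/-- the symplectic basis -/
theorem E_basis (i j : CI T n ⊕ CI T n) :
    F.E (F.b i) (F.b j) = (Matrix.fromBlocks 0 1 (-1) 0 : Matrix (CI T n ⊕ CI T n) _ ℚ) i j := by
  rcases i with i | i <;> rcases j with j | j
  · rw [Matrix.fromBlocks_apply₁₁, Matrix.zero_apply]
    exact F.b_ee i j
  · rw [Matrix.fromBlocks_apply₁₂, Matrix.one_apply]
    exact F.b_ef i j
  · rw [Matrix.fromBlocks_apply₂₁, Matrix.neg_apply, Matrix.one_apply, EE_skew]
    have h := F.b_ef j i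
    rw [Fam.E, h]
    by_cases hij : i = j
    · subst hij
      simp
    · simp [hij, Ne.symm hij]
  · rw [Matrix.fromBlocks_apply₂₂, Matrix.zero_apply]
    exact F.b_ff i j

/-- elements fixed by the conjugation have real values -/
theorem real_of {x : K} (hx : F.bar x = x) (s : K →+* ℂ) : s x = ((s x).re : ℂ) := by
  have h := F.conj s x
  rw [hx] at h
  exact (Complex.conj_eq_iff_re.1 h.symm).symm

variable (e : K)

/-- `c - e \bar e` -/
def nn : K := F.c - e * F.bar e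

theorem nn_bar : F.bar (nn F e) = nn F e := by
  rw [nn, map_sub, map_mul, F.c_bar, bar_bar]
  ring

theorem nn_re (s : K →+* ℂ) : (s (nn F e)).re = (s F.c).re - ‖s e‖ ^ 2 := by
  rw [nn, map_sub, map_mul, F.conj, Complex.mul_conj, Complex.sub_re, Complex.ofReal_re,
    Complex.normSq_eq_norm_sq]

/-- the first coordinate -/
noncomputable def z1 : K × K →ₗ[ℚ] K :=
  LinearMap.mulLeft ℚ (nn F e)⁻¹ ∘ₗ
    (LinearMap.fst ℚ K K - LinearMap.mulLeft ℚ e ∘ₗ LinearMap.snd ℚ K K)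

/-- the second coordinate -/
noncomputable def z2 : K × K →ₗ[ℚ] K :=
  LinearMap.mulLeft ℚ (nn F e)⁻¹ ∘ₗ
    (LinearMap.mulLeft ℚ F.c ∘ₗ LinearMap.snd ℚ K K -
      LinearMap.mulLeft ℚ (F.bar e) ∘ₗ LinearMap.fst ℚ K K)

theorem z1_apply (l : K × K) : z1 F e l = (nn F e)⁻¹ * (l.1 - e * l.2) := rfl

theorem z2_apply (l : K × K) : z2 F e l = (nn F e)⁻¹ * (F.c * l.2 - F.bar e * l.1) := rfl

variable {e}

theorem dec_fst (hN : nn F e ≠ 0) (l : K × K) : l.1 = z1 F e l * F.c + z2 F e l * e := by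
  rw [z1_apply, z2_apply]
  field_simp
  rw [nn]
  ring

theorem dec_snd (hN : nn F e ≠ 0) (l : K × K) : l.2 = z1 F e l * F.bar e + z2 F e l := by
  rw [z1_apply, z2_apply]
  field_simp
  rw [nn]
  ring

theorem E_dec (hN : nn F e ≠ 0) (l m : K × K) :
    F.E l m = Algebra.trace ℚ K (F.ξ * (F.c * nn F e) * (z1 F e l * F.bar (z1 F e m))) +
      Algebra.trace ℚ K (-(F.ξ * nn F e) * (z2 F e l * F.bar (z2 F e m))) := by
  rw [← map_add, Fam.E, EE]
  congr 1
  have h1 := dec_fst F hN l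
  have h2 := dec_snd F hN l
  have h3 : F.bar m.1 = F.bar (z1 F e m) * F.c + F.bar (z2 F e m) * F.bar e := by
    conv_lhs => rw [dec_fst F hN m]
    rw [map_add, map_mul, map_mul, F.c_bar]
  have h4 : F.bar m.2 = F.bar (z1 F e m) * e + F.bar (z2 F e m) := by
    conv_lhs => rw [dec_snd F hN m]
    rw [map_add, map_mul, bar_bar]
  rw [h1, h2, h3, h4, nn]
  ring

end Pool.Agent.Lib.MPf11a48.SH.VAL
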