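import Pool.Agent.Lib.MP_f11a48_ag.SH.VAL.Dec

/-!
# MP_f11a48_ag, PROJECT S0, part VAL: the period map at a CM point in the coordinates of the two
CM parts
-/

set_option autoImplicit false

open Matrix
open Pool.Agent.Lib.MPf11a48.CM hiding OmegaM
open Pool.Agent.Lib.MPf11a48.GL2T
open Pool.Agent.Lib.MPf11a48.U
open Pool.Agent.Lib.MPf11a48.CMS

namespace Pool.Agent.Lib.MPf11a48.SH.VAL

variable {K : Type} [Field K] [NumberField K] {T : Type} [Fintype T] [DecidableEq T] {n : ℕ}
  (F : Fam K T n) (s : Set (Fin n)) (p q : T ⊕ Fin n → ℂ) (e : K)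

open scoped Classical in
/-- coefficient of the first coordinate -/
noncomputable def al : CI T n → ℂ := fun i =>
  match i with
  | (Sum.inl t, j) => if j = 0 then F.sg (Sum.inl t) F.c / p (Sum.inl t) else
      (starRingEnd ℂ) (F.sg (Sum.inl t) e) / p (Sum.inl t)
  | (Sum.inr d, j) => if d ∈ s then
      (if j = 0 then 0 else -(F.sg (Sum.inr d) F.c * F.sg (Sum.inr d) (nn F e) /
        (starRingEnd ℂ) (F.sg (Sum.inr d) e)) / p (Sum.inr d)) else
      (if j = 0 then F.sg (Sum.inr d) (nn F e) / p (Sum.inr d) else 0)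

open scoped Classical in
/-- coefficient of the second coordinate -/
noncomputable def be : CI T n → ℂ := fun i =>
  match i with
  | (Sum.inl t, j) => if j = 0 then F.sg (Sum.inl t) e / q (Sum.inl t) else 1 / q (Sum.inl t)
  | (Sum.inr d, j) => if d ∈ s then
      (if j = 0 then -(F.sg (Sum.inr d) (nn F e) / (starRingEnd ℂ) (F.sg (Sum.inr d) e)) /
        q (Sum.inr d) else 0) else
      (if j = 0 then 0 else F.sg (Sum.inr d) (nn F e) / q (Sum.inr d))

/-- the change of coordinates -/
noncomputable def Dm : (CI T n → ℂ) →ₗ[ℂ] (CI T n → ℂ) where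
  toFun y i := al F s p e i * y (i.1, 0) + be F s q e i * y (i.1, 1)
  map_add' y y' := by
    funext i
    simp only [Pi.add_apply]
    ring
  map_smul' t y := by
    funext i
    simp only [Pi.smul_apply, smul_eq_mul, RingHom.id_apply]
    ring

theorem Dm_apply (y : CI T n → ℂ) (i : CI T n) :
    Dm F s p q e y i = al F s p e i * y (i.1, 0) + be F s q e i * y (i.1, 1) := rfl

/-- the coordinates of the two CM parts, with the periods -/
noncomputable def om (u : K × K) : CI T n → ℂ := fun i =>
  if i.2 = 0 then p i.1 * F.typ s i.1 (z1 F e u) else q i.1 * F.typ sᶜ i.1 (z2 F e u)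

variable {s p q e}

theorem Dm_om (hp : ∀ v, p v ≠ 0) (hq : ∀ v, q v ≠ 0) (hN : nn F e ≠ 0) {z : Fin n → ℂ}
    (h1 : ∀ d ∉ s, z d = F.sg (Sum.inr d) e)
    (h2 : ∀ d ∈ s, F.sg (Sum.inr d) e ≠ 0 ∧
      z d = F.sg (Sum.inr d) F.c / (starRingEnd ℂ) (F.sg (Sum.inr d) e)) (u : K × K) :
    Dm F s p q e (om F s p q e u) = F.per z u := by
  classical
  have hz1 : nn F e * z1 F e u = u.1 - e * u.2 := by
    rw [z1_apply]
    field_simp
  have hz2 : nn F e * z2 F e u = F.c * u.2 - F.bar e * u.1 := by
    rw [z2_apply]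
    field_simp
  funext i
  rcases i with ⟨t | d, j⟩
  · have hpt := hp (Sum.inl t)
    have hqt := hq (Sum.inl t)
    rw [Dm_apply]
    by_cases hj : j = 0
    · subst hj
      simp only [al, be, om, Fam.typ, Fam.per, Fam.perR, Fam.emb, if_true, one_ne_zero, if_false]
      have h3 := congrArg (F.sg (Sum.inl t)) (dec_fst F hN u)
      rw [map_add, map_mul, map_mul] at h3
      rw [h3]
      field_simp
    · simp only [al, be, om, Fam.typ, Fam.per, Fam.perR, Fam.emb, if_true, one_ne_zero, if_false,
        if_neg hj]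
      have h3 := congrArg (F.sg (Sum.inl t)) (dec_snd F hN u)
      rw [map_add, map_mul, F.conj] at h3
      rw [h3]
      field_simp
  · have hpt := hp (Sum.inr d)
    have hqt := hq (Sum.inr d)
    have hc : (starRingEnd ℂ) (F.sg (Sum.inr d) F.c) = F.sg (Sum.inr d) F.c := by
      rw [← F.conj, F.c_bar]
    have hNb : (starRingEnd ℂ) (F.sg (Sum.inr d) (nn F e)) = F.sg (Sum.inr d) (nn F e) := by
      rw [← F.conj, nn_bar]
    have g1 := congrArg (F.sg (Sum.inr d)) hz1
    have g2 := congrArg (F.sg (Sum.inr d)) hz2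
    rw [map_mul, map_sub, map_mul] at g1
    rw [map_mul, map_sub, map_mul, map_mul, F.conj] at g2
    have g1' := congrArg (starRingEnd ℂ) g1
    have g2' := congrArg (starRingEnd ℂ) g2
    rw [map_mul, map_sub, map_mul, hNb] at g1'
    rw [map_mul, map_sub, map_mul, map_mul, hNb, hc, Complex.conj_conj] at g2'
    rw [Dm_apply]
    by_cases hd : d ∈ s
    · obtain ⟨he0, hze⟩ := h2 d hd
      have he0' : (starRingEnd ℂ) (F.sg (Sum.inr d) e) ≠ 0 := (map_ne_zero _).2 he0
      by_cases hj : j = 0
      · subst hj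
        simp only [al, be, om, Fam.typ, Fam.per, Fam.perR, Fam.emb, if_true, one_ne_zero, if_false,
          Set.mem_compl_iff, hd, not_true_eq_false]
        rw [hze]
        field_simp
        linear_combination -g2
      · simp only [al, be, om, Fam.typ, Fam.per, Fam.perR, Fam.emb, if_true, one_ne_zero, if_false,
          if_neg hj, Set.mem_compl_iff, hd, not_true_eq_false, RingHom.comp_apply]
        rw [hze]
        field_simp
        linear_combination -(F.sg (Sum.inr d) F.c) * g1'
    · have hze := h1 d hd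
      by_cases hj : j = 0
      · subst hj
        simp only [al, be, om, Fam.typ, Fam.per, Fam.perR, Fam.emb, if_true, one_ne_zero, if_false,
          Set.mem_compl_iff, hd, not_false_eq_true]
        rw [hze]
        field_simp
        linear_combination g1
      · simp only [al, be, om, Fam.typ, Fam.per, Fam.perR, Fam.emb, if_true, one_ne_zero, if_false,
          if_neg hj, Set.mem_compl_iff, hd, not_false_eq_true, RingHom.comp_apply]
        rw [hze]
        field_simp
        linear_combination g2'

end Pool.Agent.Lib.MPf11a48.SH.VAL
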