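import Pool.Agent.Lib.MP_f11a48_ag.SH.VAL.Theta
import Pool.Agent.Lib.MP_f11a48_ag.SH.VAL.Lin
import Pool.Agent.Lib.MP_f11a48_ag.SH.POL.Main

/-!
# MP_f11a48_ag, PROJECT S0, part VAL: values at the CM points
-/

set_option autoImplicit false

open Matrix
open Pool.Agent.Lib.MPf11a48.CM hiding OmegaM
open Pool.Agent.Lib.MPf11a48.GL2T
open Pool.Agent.Lib.MPf11a48.U
open Pool.Agent.Lib.MPf11a48.CMS

namespace Pool.Agent.Lib.MPf11a48.SH

namespace VAL

variable {K : Type} [Field K] [NumberField K] {T : Type} [Fintype T] [DecidableEq T] {n : ℕ}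
  (F : Fam K T n)

theorem typ_inj (s : Set (Fin n)) : Function.Injective (F.typ s) := by
  classical
  have key : ∀ v w, F.typ s v = F.typ s w → v = w := by
    intro v w h
    have h1 : ∀ v, F.typ s v = F.sg v ∨ F.typ s v = (starRingEnd ℂ).comp (F.sg v) := by
      intro v
      rcases v with t | d
      · exact Or.inl rfl
      · by_cases hd : d ∈ s
        · exact Or.inr (if_pos hd)
        · exact Or.inl (if_neg hd)
    rcases h1 v with hv | hv <;> rcases h1 w with hw | hw <;> rw [hv, hw] at h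
    · exact F.sg_inj h
    · exact absurd h (F.sg_ne v w)
    · exact absurd h.symm (F.sg_ne w v)
    · apply F.sg_inj
      ext x
      have h2 := DFunLike.congr_fun h x
      exact (starRingEnd ℂ).injective h2
  exact fun v w h => key v w h

omit [NumberField K] in
theorem comp_comp (t : K →+* ℂ) : (starRingEnd ℂ).comp ((starRingEnd ℂ).comp t) = t := by
  ext x
  simp

theorem typ_ne (s : Set (Fin n)) (v w : T ⊕ Fin n) :
    F.typ s v ≠ (starRingEnd ℂ).comp (F.typ s w) := by
  classical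
  intro h
  have h1 : ∀ v, F.typ s v = F.sg v ∨ F.typ s v = (starRingEnd ℂ).comp (F.sg v) := by
    intro v
    rcases v with t | d
    · exact Or.inl rfl
    · by_cases hd : d ∈ s
      · exact Or.inr (if_pos hd)
      · exact Or.inl (if_neg hd)
  rcases h1 v with hv | hv <;> rcases h1 w with hw | hw
  · rw [hv, hw] at h
    exact F.sg_ne v w h
  · have h2 : v = w := by
      apply F.sg_inj
      rw [← hv, h, hw, comp_comp]
    subst h2
    rw [hv] at hw
    exact F.sg_ne v v hw
  · have h2 : v = w := by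
      apply F.sg_inj
      rw [hv, hw] at h
      have h3 := congrArg (fun r => (starRingEnd ℂ).comp r) h
      simpa only [comp_comp] using h3
    subst h2
    rw [hw] at hv
    exact F.sg_ne v v hv
  · rw [hv, hw, comp_comp] at h
    exact F.sg_ne w v h.symm

theorem typ_all (s : Set (Fin n)) (r : K →+* ℂ) :
    ∃ v, r = F.typ s v ∨ r = (starRingEnd ℂ).comp (F.typ s v) := by
  classical
  obtain ⟨v, hv⟩ := F.sg_all r
  refine ⟨v, ?_⟩
  rcases v with t | d
  · exact hv
  · by_cases hd : d ∈ s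
    · have h1 : F.typ s (Sum.inr d) = (starRingEnd ℂ).comp (F.sg (Sum.inr d)) := if_pos hd
      rw [h1, comp_comp]
      exact hv.symm
    · have h1 : F.typ s (Sum.inr d) = F.sg (Sum.inr d) := if_neg hd
      rw [h1]
      exact hv

/-- the sign of a purely imaginary element -/
theorem im_mul {x : K} (hx : F.bar x = x) (s : K →+* ℂ) :
    (s (F.ξ * x)).im = (s F.ξ).im * (s x).re := by
  rw [map_mul, Complex.mul_im, real_of F hx s]
  simp

variable {F} in
theorem nn_ne {e : K} : nn F e ≠ 0 := by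
  intro h
  have h1 := nn_re F e (F.sg (Sum.inl F.t0))
  rw [h, map_zero, Complex.zero_re] at h1
  have h2 := F.c_T F.t0
  have h3 : 0 ≤ ‖F.sg (Sum.inl F.t0) e‖ ^ 2 := by positivity
  linarith

end VAL

open VAL in
/-- **VAL** -/
theorem specVAL (hSIE : SpecSIE) (hEP : SpecEP) : SpecVAL := by
  intro L g N A hL hA K _ _ T _ _ n F s p q hp hq z hz
  classical
  obtain ⟨hzX, e, he1, he2⟩ := hz
  obtain ⟨hdet, hsym, hHH⟩ := hSIE K T n F z hzX
  have hp0 : ∀ v, p v ≠ 0 := hp.1
  have hq0 : ∀ v, q v ≠ 0 := hq.1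
  have hN : nn F e ≠ 0 := nn_ne
  -- signs
  have hNT : ∀ t, (F.sg (Sum.inl t) (nn F e)).re < 0 := by
    intro t
    rw [nn_re]
    have h2 := F.c_T t
    have h3 : 0 ≤ ‖F.sg (Sum.inl t) e‖ ^ 2 := by positivity
    linarith
  have hN1 : ∀ d ∉ s, 0 < (F.sg (Sum.inr d) (nn F e)).re := by
    intro d hd
    rw [nn_re]
    have h2 := hzX d
    rw [he1 d hd] at h2
    linarith
  have hN2 : ∀ d ∈ s, (F.sg (Sum.inr d) (nn F e)).re < 0 := by
    intro d hd
    rw [nn_re]
    obtain ⟨h2, h3⟩ := he2 d hd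
    have h4 := hzX d
    have hc := F.c_D d
    have hcr := real_of F F.c_bar (F.sg (Sum.inr d))
    rw [h3, norm_div, RCLike.norm_conj, div_pow] at h4
    have h5 : 0 < ‖F.sg (Sum.inr d) e‖ ^ 2 := by positivity
    rw [div_lt_iff₀ h5, hcr, Complex.norm_real, Real.norm_eq_abs, sq_abs, Complex.ofReal_re] at h4
    have h6 : (F.sg (Sum.inr d) F.c).re < ‖F.sg (Sum.inr d) e‖ ^ 2 := by
      nlinarith
    linarith
  have hcN : F.bar (F.c * nn F e) = F.c * nn F e := by rw [map_mul, F.c_bar, nn_bar]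
  have hcr : ∀ v, (F.sg v (F.c * nn F e)).re = (F.sg v F.c).re * (F.sg v (nn F e)).re := by
    intro v
    rw [map_mul, real_of F F.c_bar, real_of F (nn_bar F e), Complex.mul_re]
    simp
  -- the polarisations
  obtain ⟨k1, P1, β1, w1, h1Q, h1w, h1lat, h1sum⟩ := specPOL L g N A hL hA K F.bar (T ⊕ Fin n)
    (F.typ s) p (F.ξ * (F.c * nn F e)) F.conj (typ_inj F s) (typ_ne F s) (typ_all F s) hp
    (by rw [map_mul, F.ξ_bar, hcN]; ring)
    (by
      intro v
      rcases v with t | d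
      · have h0 : F.typ s (Sum.inl t) = F.sg (Sum.inl t) := rfl
        rw [h0, im_mul F hcN, hcr]
        exact mul_pos (F.ξ_pos _) (mul_pos_of_neg_of_neg (F.c_T t) (hNT t))
      · by_cases hd : d ∈ s
        · have h0 : F.typ s (Sum.inr d) = (starRingEnd ℂ).comp (F.sg (Sum.inr d)) := if_pos hd
          rw [h0, RingHom.comp_apply, Complex.conj_im, im_mul F hcN, hcr]
          have := mul_neg_of_pos_of_neg (F.ξ_pos (Sum.inr d))
            (mul_neg_of_pos_of_neg (F.c_D d) (hN2 d hd))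
          linarith
        · have h0 : F.typ s (Sum.inr d) = F.sg (Sum.inr d) := if_neg hd
          rw [h0, im_mul F hcN, hcr]
          exact mul_pos (F.ξ_pos _) (mul_pos (F.c_D d) (hN1 d hd)))
  obtain ⟨k2, P2, β2, w2, h2Q, h2w, h2lat, h2sum⟩ := specPOL L g N A hL hA K F.bar (T ⊕ Fin n)
    (F.typ sᶜ) q (-(F.ξ * nn F e)) F.conj (typ_inj F sᶜ) (typ_ne F sᶜ) (typ_all F sᶜ) hq
    (by rw [map_neg, map_mul, F.ξ_bar, nn_bar]; ring)
    (by
      intro v
      rcases v with t | d
      · have h0 : F.typ sᶜ (Sum.inl t) = F.sg (Sum.inl t) := rfl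
        rw [h0, map_neg, Complex.neg_im, im_mul F (nn_bar F e)]
        have := mul_neg_of_pos_of_neg (F.ξ_pos (Sum.inl t)) (hNT t)
        linarith
      · by_cases hd : d ∈ s
        · have h0 : F.typ sᶜ (Sum.inr d) = F.sg (Sum.inr d) :=
            if_neg (by rw [Set.mem_compl_iff, not_not]; exact hd)
          rw [h0, map_neg, Complex.neg_im, im_mul F (nn_bar F e)]
          have := mul_neg_of_pos_of_neg (F.ξ_pos (Sum.inr d)) (hN2 d hd)
          linarith
        · have h0 : F.typ sᶜ (Sum.inr d) = (starRingEnd ℂ).comp (F.sg (Sum.inr d)) :=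
            if_pos (by rw [Set.mem_compl_iff]; exact hd)
          rw [h0, RingHom.comp_apply, Complex.conj_im, map_neg, Complex.neg_im,
            im_mul F (nn_bar F e)]
          have := mul_pos (F.ξ_pos (Sum.inr d)) (hN1 d hd)
          linarith)
  -- the coordinates
  set τ : CI T n → CI T n → ℂ := F.tau z with hτ
  let W : (CI T n → ℂ) →ₗ[ℂ] (CI T n → ℂ) := Matrix.mulVecLin (F.Ome z)⁻¹ ∘ₗ Dm F s p q e
  let ω : CI T n ⊕ CI T n → CI T n → ℂ := fun l => om F s p q e (F.b l)
  have hWu : ∀ u, W (om F s p q e u) = (F.Ome z)⁻¹ *ᵥ F.per z u := by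
    intro u
    change (F.Ome z)⁻¹ *ᵥ (Dm F s p q e (om F s p q e u)) = _
    rw [Dm_om F hp0 hq0 hN he1 he2]
  have hcol : ∀ (B C : Matrix (CI T n) (CI T n) ℂ) (j : CI T n),
      (B *ᵥ fun i => C i j) = fun i => (B * C) i j := by
    intro B C j
    funext i
    rw [Matrix.mul_apply]
    rfl
  have he : ∀ j, W (ω (Sum.inl j)) = Pi.single j 1 := by
    intro j
    have h1 : F.per z (F.b (Sum.inl j)) = fun i => F.Ome z i j := rfl
    rw [hWu, h1, hcol, Matrix.nonsing_inv_mul _ hdet]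
    funext i
    rw [Matrix.one_apply, Pi.single_apply]
  have hf : ∀ j, W (ω (Sum.inr j)) = fun i => τ i j := by
    intro j
    have h1 : F.per z (F.b (Sum.inr j)) = fun i => F.Omf z i j := rfl
    rw [hWu, h1, hcol]
    rfl
  have hsym' : ∀ i j, τ j i = τ i j := by
    intro i j
    have := congrFun (congrFun hsym i) j
    rw [Matrix.transpose_apply] at this
    exact this
  have hPTh := pth_of hsym' hHH he hf
  -- the data
  let P : Fin k1 ⊕ Fin k2 → Matrix (Fin g) (CI T n) ℂ := Sum.elim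
    (fun j => Matrix.of fun r i => if i.2 = 0 then P1 j r i.1 else 0)
    (fun j => Matrix.of fun r i => if i.2 = 0 then 0 else P2 j r i.1)
  let B : Fin k1 ⊕ Fin k2 → Matrix (CI T n ⊕ CI T n) (Ix g) ℚ := Sum.elim
    (fun j => Matrix.of fun l l' => β1 j (z1 F e (F.b l)) l')
    (fun j => Matrix.of fun l l' => β2 j (z2 F e (F.b l)) l')
  have hPQ : ∀ j r i, P j r i ∈ Qbar := by
    intro j r i
    rcases j with j | j
    · change (if i.2 = 0 then P1 j r i.1 else 0) ∈ Qbar
      split_ifs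
      · exact h1Q j r i.1
      · exact zero_mem _
    · change (if i.2 = 0 then 0 else P2 j r i.1) ∈ Qbar
      split_ifs
      · exact zero_mem _
      · exact h2Q j r i.1
  have hPlat : ∀ j l, P j *ᵥ ω l = ∑ l', ((B j l l' : ℚ) : ℂ) • A.lat l' := by
    intro j l
    rcases j with j | j
    · have h1 := h1lat j (z1 F e (F.b l))
      have h2 : P (Sum.inl j) *ᵥ ω l = P1 j *ᵥ fun v => p v * F.typ s v (z1 F e (F.b l)) := by
        funext r
        simp only [Matrix.mulVec, dotProduct]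
        rw [Fintype.sum_prod_type]
        refine Finset.sum_congr rfl fun v _ => ?_
        rw [Fin.sum_univ_two]
        simp [P, ω, om]
      rw [h2, h1]
      rfl
    · have h1 := h2lat j (z2 F e (F.b l))
      have h2 : P (Sum.inr j) *ᵥ ω l = P2 j *ᵥ fun v => q v * F.typ sᶜ v (z2 F e (F.b l)) := by
        funext r
        simp only [Matrix.mulVec, dotProduct]
        rw [Fintype.sum_prod_type]
        refine Finset.sum_congr rfl fun v _ => ?_
        rw [Fin.sum_univ_two]
        simp [P, ω, om]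
      rw [h2, h1]
      rfl
  have hBsum : ∑ j, (Sum.elim w1 w2 : Fin k1 ⊕ Fin k2 → ℚ) j •
      (B j * A.E.map (fun x => (x : ℚ)) * (B j)ᵀ) = Matrix.fromBlocks 0 1 (-1) 0 := by
    ext l l'
    rw [← E_basis F l l', E_dec F hN, ← h1sum, ← h2sum, Matrix.sum_apply, Fintype.sum_sum_type]
    congr 1
    · refine Finset.sum_congr rfl fun j _ => ?_
      rw [Matrix.smul_apply, Matrix.mul_assoc, Matrix.mul_apply, smul_eq_mul]
      congr 1
    · refine Finset.sum_congr rfl fun j _ => ?_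
      rw [Matrix.smul_apply, Matrix.mul_assoc, Matrix.mul_apply, smul_eq_mul]
      congr 1
  obtain ⟨Om, hOm, hval⟩ := hEP L g N A hL hA (CI T n) ω (aW W)
    (fun y => TH.th τ (W y)) hPTh (Fin k1 ⊕ Fin k2) P B (Sum.elim w1 w2) hPQ
    (by rintro (j | j); exacts [h1w j, h2w j]) hPlat hBsum
  -- values
  have hpc : ∀ (u : K × K) i, F.pc u i = (((F.b.repr u) (Sum.inr i) : ℚ) : ℝ) := fun _ _ => rfl
  have hqc : ∀ (u : K × K) i, F.qc u i = (((F.b.repr u) (Sum.inl i) : ℚ) : ℝ) := fun _ _ => rfl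
  refine ⟨Om, hOm, fun u => ?_, fun u v => ?_⟩
  · have h1 := (hval (F.b.repr u)).1
    rw [tt_eq hsym' he hf (F.b.repr u) (F.pc u) (F.qc u) (hpc u) (hqc u), map_zero, add_zero] at h1
    exact h1
  · -- directions
    have hpt := hp0 (Sum.inl F.t0)
    have hqt := hq0 (Sum.inl F.t0)
    have hNs : F.sg (Sum.inl F.t0) (nn F e) ≠ 0 := (map_ne_zero _).2 hN
    let D : K × K → (CI T n → ℂ) → ℂ := fun u v =>
      fderiv ℂ (TT ω (aW W) (fun y => TH.th τ (W y)) (F.b.repr u)) 0 v
    have hDQ : ∀ u (j : Fin 2), D u (Pi.single (Sum.inl F.t0, j) 1) / Om ∈ Qbar := by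
      intro u j
      refine (hval (F.b.repr u)).2 _ fun i => ?_
      rw [Pi.single_apply]
      split_ifs
      · exact one_mem _
      · exact zero_mem _
    have hKD : ∀ u v, F.KD z u (Dm F s p q e v) = D u v := by
      intro u v
      have h1 := fderiv_tt hsym' hHH he hf (F.b.repr u) (F.pc u) (F.qc u) (hpc u) (hqc u) v
      change KD1 τ (F.pc u) (F.qc u) ((F.Ome z)⁻¹ *ᵥ (Dm F s p q e v)) = _
      rw [← show W v = (F.Ome z)⁻¹ *ᵥ (Dm F s p q e v) from rfl, ← h1]
    -- preimages of the unit vectors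
    have hDm : ∀ a b : ℂ, Dm F s p q e (a • Pi.single (Sum.inl F.t0, 0) 1 +
        b • Pi.single (Sum.inl F.t0, 1) 1) =
        (F.sg (Sum.inl F.t0) F.c / p (Sum.inl F.t0) * a +
          F.sg (Sum.inl F.t0) e / q (Sum.inl F.t0) * b) • Pi.single (Sum.inl F.t0, 0) 1 +
        ((starRingEnd ℂ) (F.sg (Sum.inl F.t0) e) / p (Sum.inl F.t0) * a +
          1 / q (Sum.inl F.t0) * b) • Pi.single (Sum.inl F.t0, 1) 1 := by
      intro a b
      funext i
      obtain ⟨v, j⟩ := i
      rw [Dm_apply]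
      simp only [Pi.add_apply, Pi.smul_apply, smul_eq_mul, Pi.single_apply, Prod.mk.injEq]
      by_cases hv : v = Sum.inl F.t0
      · subst hv
        by_cases hj : j = 0
        · subst hj
          simp [al, be]
        · have hj1 : j = 1 := by omega
          subst hj1
          simp [al, be]
      · simp [hv]
    have hNe : F.sg (Sum.inl F.t0) (nn F e) = F.sg (Sum.inl F.t0) F.c -
        F.sg (Sum.inl F.t0) e * (starRingEnd ℂ) (F.sg (Sum.inl F.t0) e) := by
      rw [nn, map_sub, map_mul, F.conj]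
    have hD : ∀ u (a b : ℂ), D u (a • Pi.single (Sum.inl F.t0, 0) 1 +
        b • Pi.single (Sum.inl F.t0, 1) 1) = a * D u (Pi.single (Sum.inl F.t0, 0) 1) +
          b * D u (Pi.single (Sum.inl F.t0, 1) 1) := by
      intro u a b
      simp only [D, map_add, map_smul, smul_eq_mul]
    have hK0 : ∀ u, F.KD z u (Pi.single (Sum.inl F.t0, 0) 1) =
        (p (Sum.inl F.t0) / F.sg (Sum.inl F.t0) (nn F e)) * D u (Pi.single (Sum.inl F.t0, 0) 1) +
        (-(q (Sum.inl F.t0) * (starRingEnd ℂ) (F.sg (Sum.inl F.t0) e) /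
          F.sg (Sum.inl F.t0) (nn F e))) * D u (Pi.single (Sum.inl F.t0, 1) 1) := by
      intro u
      rw [← hD, ← hKD, hDm]
      congr 1
      have h1 : F.sg (Sum.inl F.t0) F.c / p (Sum.inl F.t0) *
          (p (Sum.inl F.t0) / F.sg (Sum.inl F.t0) (nn F e)) +
          F.sg (Sum.inl F.t0) e / q (Sum.inl F.t0) *
          (-(q (Sum.inl F.t0) * (starRingEnd ℂ) (F.sg (Sum.inl F.t0) e) /
          F.sg (Sum.inl F.t0) (nn F e))) = 1 := by
        field_simp
        rw [hNe]
        ring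
      have h2 : (starRingEnd ℂ) (F.sg (Sum.inl F.t0) e) / p (Sum.inl F.t0) *
          (p (Sum.inl F.t0) / F.sg (Sum.inl F.t0) (nn F e)) + 1 / q (Sum.inl F.t0) *
          (-(q (Sum.inl F.t0) * (starRingEnd ℂ) (F.sg (Sum.inl F.t0) e) /
          F.sg (Sum.inl F.t0) (nn F e))) = 0 := by
        field_simp
        ring
      rw [h1, h2, one_smul, zero_smul, add_zero]
    have hK1 : ∀ u, F.KD z u (Pi.single (Sum.inl F.t0, 1) 1) =
        (-(p (Sum.inl F.t0) * F.sg (Sum.inl F.t0) e / F.sg (Sum.inl F.t0) (nn F e))) *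
          D u (Pi.single (Sum.inl F.t0, 0) 1) +
        (q (Sum.inl F.t0) * F.sg (Sum.inl F.t0) F.c / F.sg (Sum.inl F.t0) (nn F e)) *
          D u (Pi.single (Sum.inl F.t0, 1) 1) := by
      intro u
      rw [← hD, ← hKD, hDm]
      congr 1
      have h1 : F.sg (Sum.inl F.t0) F.c / p (Sum.inl F.t0) *
          (-(p (Sum.inl F.t0) * F.sg (Sum.inl F.t0) e / F.sg (Sum.inl F.t0) (nn F e))) +
          F.sg (Sum.inl F.t0) e / q (Sum.inl F.t0) *
          (q (Sum.inl F.t0) * F.sg (Sum.inl F.t0) F.c / F.sg (Sum.inl F.t0) (nn F e)) = 0 := by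
        field_simp
        ring
      have h2 : (starRingEnd ℂ) (F.sg (Sum.inl F.t0) e) / p (Sum.inl F.t0) *
          (-(p (Sum.inl F.t0) * F.sg (Sum.inl F.t0) e / F.sg (Sum.inl F.t0) (nn F e))) +
          1 / q (Sum.inl F.t0) *
          (q (Sum.inl F.t0) * F.sg (Sum.inl F.t0) F.c / F.sg (Sum.inl F.t0) (nn F e)) = 1 := by
        field_simp
        rw [hNe]
        ring
      rw [h1, h2, one_smul, zero_smul, zero_add]
    have hfin : F.HD z u v / (Om ^ 2 * (p (Sum.inl F.t0) * q (Sum.inl F.t0))) =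
        (D u (Pi.single (Sum.inl F.t0, 0) 1) / Om * (D v (Pi.single (Sum.inl F.t0, 1) 1) / Om) -
          D u (Pi.single (Sum.inl F.t0, 1) 1) / Om * (D v (Pi.single (Sum.inl F.t0, 0) 1) / Om)) /
            F.sg (Sum.inl F.t0) (nn F e) := by
      rw [Fam.HD, hK0, hK0, hK1, hK1]
      field_simp
      rw [hNe]
      ring
    rw [hfin]
    refine div_mem (sub_mem (mul_mem (hDQ u 0) (hDQ v 1)) (mul_mem (hDQ u 1) (hDQ v 0))) ?_
    exact POL.emb_alg _ _

end Pool.Agent.Lib.MPf11a48.SH
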