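import Pool.Agent.Lib.MP_f11a48_ag.SH.Spec
import Pool.Agent.Lib.MP_f11a48_ag.SH.TH.Uni

/-!
# MP_f11a48_ag, PROJECT S0, part VAL: the theta function in other coordinates

`W` is a linear change of coordinates with `W ω_{e_j} = j`-th unit vector, `W ω_{f_j} = τ_j`. The
function `th τ (W y)` is a theta function for the lattice `ω` (`PTh`), and its normalised translates
are `exp(- π i p.q) Ks τ p (q + W y)`.
-/

set_option autoImplicit false

open Matrix
open Pool.Agent.Lib.MPf11a48.CM hiding OmegaM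
open Pool.Agent.Lib.MPf11a48.GL2T
open Pool.Agent.Lib.MPf11a48.U
open Pool.Agent.Lib.MPf11a48.CMS

namespace Pool.Agent.Lib.MPf11a48.SH.VAL

variable {ι : Type} [Fintype ι] [DecidableEq ι]

/-- the linear forms -/
noncomputable def aW (W : (ι → ℂ) →ₗ[ℂ] (ι → ℂ)) : ι ⊕ ι → (ι → ℂ) →ₗ[ℂ] ℂ :=
  Sum.elim (fun _ => 0) fun i => (-(2 * Real.pi * Complex.I)) • (LinearMap.proj i ∘ₗ W)

variable {τ : ι → ι → ℂ} {W : (ι → ℂ) →ₗ[ℂ] (ι → ℂ)} {ω : ι ⊕ ι → ι → ℂ}

omit [Fintype ι] [DecidableEq ι] in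
theorem aW_inl (j : ι) (y : ι → ℂ) : aW W (Sum.inl j) y = 0 := rfl

omit [Fintype ι] [DecidableEq ι] in
theorem aW_inr (j : ι) (y : ι → ℂ) : aW W (Sum.inr j) y = -(2 * Real.pi * Complex.I) * W y j := rfl

omit [DecidableEq ι] in
theorem linR_aW (x : ι ⊕ ι → ℚ) (y : ι → ℂ) :
    linR (aW W) x y = -(2 * Real.pi * Complex.I) * ∑ i, (x (Sum.inr i) : ℂ) * W y i := by
  rw [linR, LinearMap.sum_apply, Fintype.sum_sum_type]
  simp only [LinearMap.smul_apply, aW_inl, aW_inr, smul_eq_mul, mul_zero, Finset.sum_const_zero,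
    zero_add, Finset.mul_sum]
  exact Finset.sum_congr rfl fun i _ => by ring

theorem W_vecR (he : ∀ j, W (ω (Sum.inl j)) = Pi.single j 1)
    (hf : ∀ j, W (ω (Sum.inr j)) = fun i => τ i j) (x : ι ⊕ ι → ℚ) (i : ι) :
    W (vecR ω x) i = (x (Sum.inl i) : ℂ) + ∑ j, τ i j * (x (Sum.inr j) : ℂ) := by
  rw [vecR, map_sum, Finset.sum_apply, Fintype.sum_sum_type]
  simp only [map_smul, he, hf, Pi.smul_apply, smul_eq_mul]
  congr 1
  · rw [Finset.sum_eq_single i]
    · rw [Pi.single_eq_same, mul_one]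
    · intro j _ hj
      rw [Pi.single_eq_of_ne (Ne.symm hj), mul_zero]
    · intro h
      exact absurd (Finset.mem_univ i) h
  · exact Finset.sum_congr rfl fun j _ => by ring

omit [DecidableEq ι] in
theorem mv_sym (hsym : ∀ i j, τ j i = τ i j) (x : ι → ℂ) (i : ι) :
    TH.mv τ x i = ∑ j, τ i j * x j := by
  rw [TH.mv]
  refine Finset.sum_congr rfl fun j _ => ?_
  rw [hsym]
  ring

/-- real linear independence -/
theorem indep_of (hτ : τ ∈ TH.HH ι) (he : ∀ j, W (ω (Sum.inl j)) = Pi.single j 1)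
    (hf : ∀ j, W (ω (Sum.inr j)) = fun i => τ i j) : LinearIndependent ℝ ω := by
  rw [Fintype.linearIndependent_iff]
  intro r hr
  have h1 : ∀ i, (r (Sum.inl i) : ℂ) + ∑ j, τ i j * (r (Sum.inr j) : ℂ) = 0 := by
    intro i
    have h2 : W (∑ l, r l • ω l) i = 0 := by rw [hr, map_zero]; rfl
    have h3 : ∑ l, r l • ω l = ∑ l, (r l : ℂ) • ω l := by
      refine Finset.sum_congr rfl fun l _ => ?_
      funext k
      simp
    rw [h3, map_sum, Finset.sum_apply, Fintype.sum_sum_type] at h2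
    simp only [map_smul, he, hf, Pi.smul_apply, smul_eq_mul] at h2
    rw [Finset.sum_eq_single i (fun j _ hj => by
      rw [Pi.single_eq_of_ne (Ne.symm hj), mul_zero]) (fun h => absurd (Finset.mem_univ i) h),
      Pi.single_eq_same, mul_one] at h2
    rw [← h2]
    congr 1
    exact Finset.sum_congr rfl fun j _ => by ring
  have h4 : (fun j => r (Sum.inr j)) = 0 := by
    by_contra hne
    have h5 := hτ (fun j => r (Sum.inr j)) hne
    have h6 : TH.Q τ (fun j => r (Sum.inr j)) = 0 := by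
      rw [TH.Q]
      refine Finset.sum_eq_zero fun i _ => ?_
      have h7 := congrArg Complex.im (h1 i)
      rw [Complex.add_im, Complex.ofReal_im, zero_add, Complex.im_sum, Complex.zero_im] at h7
      have h8 : ∑ j, r (Sum.inr i) * r (Sum.inr j) * (τ i j).im =
          r (Sum.inr i) * ∑ j, (τ i j * (r (Sum.inr j) : ℂ)).im := by
        rw [Finset.mul_sum]
        refine Finset.sum_congr rfl fun j _ => ?_
        rw [Complex.mul_im, Complex.ofReal_re, Complex.ofReal_im]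
        ring
      rw [h8, h7, mul_zero]
    exact absurd h6 h5.ne'
  have h9 : ∀ j, r (Sum.inr j) = 0 := fun j => congrFun h4 j
  intro l
  rcases l with i | j
  · have h10 := h1 i
    simp only [h9, Complex.ofReal_zero, mul_zero, Finset.sum_const_zero, add_zero] at h10
    exact_mod_cast h10
  · exact h9 j

/-- the normalised translates -/
theorem tt_eq (hsym : ∀ i j, τ j i = τ i j) (he : ∀ j, W (ω (Sum.inl j)) = Pi.single j 1)
    (hf : ∀ j, W (ω (Sum.inr j)) = fun i => τ i j) (x : ι ⊕ ι → ℚ) (p q : ι → ℝ)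
    (hp : ∀ i, p i = ((x (Sum.inr i) : ℚ) : ℝ)) (hq : ∀ i, q i = ((x (Sum.inl i) : ℚ) : ℝ))
    (y : ι → ℂ) :
    TT ω (aW W) (fun y => TH.th τ (W y)) x y =
      Complex.exp (-(Real.pi * Complex.I * ∑ i, (p i : ℂ) * (q i : ℂ))) *
        TH.Ks τ (TH.rc p) (TH.rc q + W y) := by
  have hp' : ∀ i, (x (Sum.inr i) : ℂ) = (p i : ℂ) := fun i => by rw [hp, Complex.ofReal_ratCast]
  have hq' : ∀ i, (x (Sum.inl i) : ℂ) = (q i : ℂ) := fun i => by rw [hq, Complex.ofReal_ratCast]
  rw [TT, TH.Ks_eq, ← mul_assoc, ← Complex.exp_add]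
  have h1 : W (y + vecR ω x) = TH.rc q + W y + TH.mv τ (TH.rc p) := by
    funext i
    rw [map_add, Pi.add_apply, W_vecR he hf, Pi.add_apply, Pi.add_apply, mv_sym hsym]
    simp only [hp', hq', TH.rc]
    ring
  simp only [h1]
  congr 2
  rw [linR_aW, linR_aW, TH.L_apply]
  have h2 : ∑ i, (x (Sum.inr i) : ℂ) * W (vecR ω x) i =
      ∑ i, (p i : ℂ) * (q i : ℂ) + ∑ i, ∑ j, TH.rc p i * TH.rc p j * τ i j := by
    rw [← Finset.sum_add_distrib]
    refine Finset.sum_congr rfl fun i _ => ?_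
    rw [W_vecR he hf, hp', hq', mul_add, Finset.mul_sum]
    congr 1
    refine Finset.sum_congr rfl fun j _ => ?_
    rw [hp']
    simp only [TH.rc]
    ring
  have h3 : ∑ i, TH.rc p i * (TH.rc q + W y) i = ∑ i, (p i : ℂ) * (q i : ℂ) +
      ∑ i, (x (Sum.inr i) : ℂ) * W y i := by
    rw [← Finset.sum_add_distrib]
    refine Finset.sum_congr rfl fun i _ => ?_
    rw [hp', Pi.add_apply]
    simp only [TH.rc]
    ring
  rw [h2, h3]
  ring

/-- the theta function is a theta function for `ω` -/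
theorem pth_of (hsym : ∀ i j, τ j i = τ i j) (hτ : τ ∈ TH.HH ι)
    (he : ∀ j, W (ω (Sum.inl j)) = Pi.single j 1)
    (hf : ∀ j, W (ω (Sum.inr j)) = fun i => τ i j) :
    PTh ω (aW W) (fun y => TH.th τ (W y)) := by
  refine ⟨indep_of hτ he hf, ?_, ?_, ?_, ?_⟩
  · exact (TH.th_diff hτ).comp (LinearMap.toContinuousLinearMap W).differentiable
  · obtain ⟨x, hx⟩ := TH.th_ne_real hτ
    refine ⟨∑ j, (x j : ℂ) • ω (Sum.inl j), ?_⟩
    have hy : W (∑ j, (x j : ℂ) • ω (Sum.inl j)) = TH.rc x := by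
      rw [map_sum]
      funext i
      rw [Finset.sum_apply, Finset.sum_eq_single i]
      · rw [map_smul, he, Pi.smul_apply, Pi.single_eq_same, smul_eq_mul, mul_one]
        rfl
      · intro j _ hj
        rw [map_smul, he, Pi.smul_apply, Pi.single_eq_of_ne (Ne.symm hj), smul_zero]
      · intro h
        exact absurd (Finset.mem_univ i) h
    rw [hy]
    exact hx
  · refine ⟨2, fun x => Complex.exp (Real.pi * Complex.I *
      ((∑ i, x (Sum.inr i) * x (Sum.inl i) : ℤ) : ℂ)), two_pos, ?_, ?_⟩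
    · intro x
      rw [← Complex.exp_nat_mul]
      have h1 : ((2 : ℕ) : ℂ) * (Real.pi * Complex.I *
          ((∑ i, x (Sum.inr i) * x (Sum.inl i) : ℤ) : ℂ)) =
          ((∑ i, x (Sum.inr i) * x (Sum.inl i) : ℤ) : ℂ) * (2 * Real.pi * Complex.I) := by
        push_cast
        ring
      rw [h1]
      exact Complex.exp_int_mul_two_pi_mul_I _
    · intro x z
      have h1 : W (z + vecR ω fun l => ((x l : ℤ) : ℚ)) =
          W z + TH.mv τ (TH.ic fun i => x (Sum.inr i)) +
            TH.ic fun i => x (Sum.inl i) := by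
        funext i
        rw [map_add, Pi.add_apply, W_vecR he hf, Pi.add_apply, Pi.add_apply, mv_sym hsym]
        simp only [TH.ic, Rat.cast_intCast]
        ring
      simp only [h1]
      rw [TH.th_add_int, TH.th_add_tau, ← Complex.exp_add]
      congr 2
      rw [linR_aW, linR_aW, TH.L_apply]
      have h2 : ∑ i, (((x (Sum.inr i) : ℤ) : ℚ) : ℂ) * W (vecR ω fun l => ((x l : ℤ) : ℚ)) i =
          ((∑ i, x (Sum.inr i) * x (Sum.inl i) : ℤ) : ℂ) +
            ∑ i, ∑ j, TH.ic (fun i => x (Sum.inr i)) i * TH.ic (fun i => x (Sum.inr i)) j * τ i j := by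
        push_cast
        rw [← Finset.sum_add_distrib]
        refine Finset.sum_congr rfl fun i _ => ?_
        rw [W_vecR he hf, mul_add, Finset.mul_sum]
        simp only [TH.ic, Rat.cast_intCast]
        congr 1
        exact Finset.sum_congr rfl fun j _ => by ring
      have h3 : ∑ i, (((x (Sum.inr i) : ℤ) : ℚ) : ℂ) * W z i =
          ∑ i, TH.ic (fun i => x (Sum.inr i)) i * W z i := by
        refine Finset.sum_congr rfl fun i _ => ?_
        simp only [TH.ic, Rat.cast_intCast]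
      rw [h2, h3]
      ring
  · intro i j
    rcases i with i | i <;> rcases j with j | j
    · simp [aW_inl]
    · rw [aW_inl, aW_inr, he, Matrix.fromBlocks_apply₁₂, Matrix.one_apply, Pi.single_apply]
      by_cases h : i = j
      · subst h
        simp
      · simp [h, Ne.symm h]
    · rw [aW_inl, aW_inr, he, Matrix.fromBlocks_apply₂₁, Matrix.neg_apply, Matrix.one_apply,
        Pi.single_apply]
      by_cases h : i = j
      · subst h
        simp
      · simp [h]
    · rw [aW_inr, aW_inr, hf, hf, Matrix.fromBlocks_apply₂₂, Matrix.zero_apply]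
      beta_reduce
      rw [hsym]
      ring

/-- the derivative of the normalised translates -/
theorem fderiv_tt (hsym : ∀ i j, τ j i = τ i j) (hτ : τ ∈ TH.HH ι)
    (he : ∀ j, W (ω (Sum.inl j)) = Pi.single j 1)
    (hf : ∀ j, W (ω (Sum.inr j)) = fun i => τ i j) (x : ι ⊕ ι → ℚ) (p q : ι → ℝ)
    (hp : ∀ i, p i = ((x (Sum.inr i) : ℚ) : ℝ)) (hq : ∀ i, q i = ((x (Sum.inl i) : ℚ) : ℝ))
    (v : ι → ℂ) :
    fderiv ℂ (TT ω (aW W) (fun y => TH.th τ (W y)) x) 0 v =
      KD1 τ p q (W v) := by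
  have h0 : TT ω (aW W) (fun y => TH.th τ (W y)) x = fun y =>
      Complex.exp (-(Real.pi * Complex.I * ∑ i, (p i : ℂ) * (q i : ℂ))) *
        (fun P : TH.PP ι => TH.Ks P.1 (TH.rc p) P.2) (τ, TH.rc q + W y) :=
    funext fun y => tt_eq hsym he hf x p q hp hq y
  let ℓ : (ι → ℂ) →L[ℂ] TH.PP ι :=
    (0 : (ι → ℂ) →L[ℂ] (ι → ι → ℂ)).prod (LinearMap.toContinuousLinearMap W)
  have h1 : HasFDerivAt (fun y : ι → ℂ => ((τ, TH.rc q + W y) : TH.PP ι)) ℓ 0 := by
    have h2 : (fun y : ι → ℂ => ((τ, TH.rc q + W y) : TH.PP ι)) =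
        fun y => ((τ, TH.rc q) : TH.PP ι) + ℓ y := by
      funext y
      refine Prod.ext ?_ rfl
      change τ = τ + 0
      rw [add_zero]
    rw [h2]
    exact ℓ.hasFDerivAt.const_add _
  have h3 := TH.hasFDerivAt_Ks (TH.rc p) ((τ, TH.rc q + W 0) : TH.PP ι) hτ
  have h4 := (h3.comp (0 : ι → ℂ) h1).const_mul
    (Complex.exp (-(Real.pi * Complex.I * ∑ i, (p i : ℂ) * (q i : ℂ))))
  rw [h0]
  have h5 := h4.fderiv
  have h6 : fderiv ℂ (fun y => Complex.exp (-(Real.pi * Complex.I * ∑ i, (p i : ℂ) * (q i : ℂ))) *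
        (fun P : TH.PP ι => TH.Ks P.1 (TH.rc p) P.2) (τ, TH.rc q + W y)) 0 =
      Complex.exp (-(Real.pi * Complex.I * ∑ i, (p i : ℂ) * (q i : ℂ))) •
        (TH.DK (TH.rc p) (τ, TH.rc q + W 0)).comp ℓ := h5
  rw [h6, _root_.smul_apply, ContinuousLinearMap.comp_apply, TH.DK_apply _ _ hτ, map_zero, add_zero]
  rfl

end Pool.Agent.Lib.MPf11a48.SH.VAL
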